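import Pool.Agent.Helper72.MainThm2
import Pool.Agent.Helper48.ExistsUniversal

/-!
Inseparability of the Kolmogorov-simple part of SAT from the complement of SAT is equivalent
to P being different from NP. The definitions used by the statement (formulas and their binary
code, `SAT`, `InP`, `InNP`, `IsUniversal`, `KClass`, `PolySep`) are in
`Pool/Agent/Helper72/Defs.lean`. Machines are the Turing machines of Mathlib.
-/

namespace Pool.Agent.Results.MP_359409_lc.InseparableIffPneNP

open Pool.Agent.Helper72 Turing Filter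

/-- For every universal machine `U`, every description bound `g` with
`g(n) - log log log n → ∞` and every time bound `G` that is eventually above every
polynomial:
(1) `K[g(n), G(n)] ∩ SAT` and the complement of `SAT` are polynomially inseparable if and
only if P is different from NP;
(2) the same for `K[g(n), G(n)] ∩ SAT` and `K[g(n), G(n)] \ SAT`, that is, P is different
from NP if and only if every polynomial time set differs from `SAT` on some word of
`K[g(n), G(n)]`. -/
theorem result (U : TM2ComputableAux Bool Bool) (hU : IsUniversal U) (g G : ℕ → ℕ)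
    (hg : ∀ c, ∀ᶠ n in atTop, Nat.log 2 (Nat.log 2 (Nat.log 2 n)) + c ≤ g n)
    (hG : ∀ k, ∀ᶠ n in atTop, n ^ k ≤ G n) :
    (¬ PolySep (KClass U g G ∩ SAT) SATᶜ ↔ ∃ L, InNP L ∧ ¬ InP L) ∧
    (¬ PolySep (KClass U g G ∩ SAT) (KClass U g G ∩ SATᶜ) ↔ ∃ L, InNP L ∧ ¬ InP L) := by
  have h1 : (∃ L, InNP L ∧ ¬ InP L) →
      ¬ PolySep (KClass U g G ∩ SAT) (KClass U g G ∩ SATᶜ) := by
    rintro ⟨L, hL, hnP⟩ ⟨S, hS, hKS, hSK⟩
    refine hnP (inP_of_agree hU hg hG hS (fun x hx => ⟨fun hxS => ?_, fun hxS => ?_⟩) hL)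
    · by_contra hcon
      have : x ∈ S ∩ (KClass U g G ∩ SATᶜ) := ⟨hxS, hx, hcon⟩
      rw [hSK] at this
      exact this
    · exact hKS ⟨hx, hxS⟩
  have h2 : ¬ PolySep (KClass U g G ∩ SAT) (KClass U g G ∩ SATᶜ) →
      ¬ PolySep (KClass U g G ∩ SAT) SATᶜ := by
    rintro h ⟨S, hS, hKS, hSc⟩
    refine h ⟨S, hS, hKS, ?_⟩
    rw [← Set.subset_empty_iff] at hSc ⊢
    exact (Set.inter_subset_inter_right S Set.inter_subset_right).trans hSc
  have h3 : ¬ PolySep (KClass U g G ∩ SAT) SATᶜ → ∃ L, InNP L ∧ ¬ InP L := by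
    intro h
    refine ⟨SAT, Pool.Agent.Helper4.SatNP.sat_inNP, fun hP => h ⟨SAT, hP, ?_, ?_⟩⟩
    · exact Set.inter_subset_right
    · exact Set.inter_compl_self SAT
  exact ⟨⟨h3, fun h => h2 (h1 h)⟩, ⟨fun h => h3 (h2 h), h1⟩⟩

/-- The instance asked about: `g(n) = ⌈log2 n⌉` and `G(n) = n ^ ⌈log2 n⌉`. -/
theorem question_one (U : TM2ComputableAux Bool Bool) (hU : IsUniversal U) :
    ¬ PolySep (KClass U (Nat.clog 2) (fun n => n ^ Nat.clog 2 n) ∩ SAT) SATᶜ ↔
      ∃ L, InNP L ∧ ¬ InP L := by
  have hlog : Tendsto (fun n => Nat.log 2 n) atTop atTop := by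
    refine tendsto_atTop_atTop.2 fun b => ⟨2 ^ b, fun a ha => ?_⟩
    exact Nat.le_log_of_pow_le (by norm_num) ha
  refine (result U hU _ _ (fun c => ?_) (fun k => ?_)).1
  · filter_upwards [hlog.eventually (hlog.eventually_ge_atTop (c + 2)),
      eventually_ge_atTop 2] with n hn h2
    set m := Nat.log 2 (Nat.log 2 n) with hm
    have h0 : Nat.log 2 n ≠ 0 := by
      intro h; rw [hm, h] at hn; simp at hn
    have h1 : 2 ^ m ≤ Nat.log 2 n := Nat.pow_log_le_self 2 h0
    have h3 : Nat.log 2 n ≤ Nat.clog 2 n := Nat.log_le_clog 2 n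
    have h4 : Nat.log 2 m + c ≤ 2 ^ m := by
      have h5 : Nat.log 2 m ≤ m := Nat.log_le_self _ _
      have h6 : ∀ k, 2 ≤ k → 2 * k ≤ 2 ^ k := by
        intro k hk
        induction k, hk using Nat.le_induction with
        | base => norm_num
        | succ k hk ih => rw [pow_succ]; omega
      have := h6 m (by omega)
      omega
    omega
  · filter_upwards [hlog.eventually_ge_atTop k, eventually_ge_atTop 1] with n hn h1
    exact Nat.pow_le_pow_right h1 (hn.trans (Nat.log_le_clog 2 n))

/-- Universal machines in the sense used above exist. -/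
theorem universal_exists : ∃ U : TM2ComputableAux Bool Bool, IsUniversal U :=
  Pool.Agent.Helper48.exists_universal

end Pool.Agent.Results.MP_359409_lc.InseparableIffPneNP
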