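import Pool.Agent.Helper70.AC.Rig
import Pool.Agent.Helper70.AC.NoSmall
import Pool.Agent.Helper70.AC.Sparse
import Pool.Agent.Helper70.AC.Dens
import Pool.Agent.Helper48.ExistsUniversal

/-!
Unconditional inseparability of the Kolmogorov-simple part of SAT from the complement of SAT by
polynomial time sets of small constant depth complexity, and the rigidity of all polynomial time
separators. Machines are the Turing machines of Mathlib. The definitions used by the statement are
in `Pool/Agent/Helper72/Defs.lean` (formulas and their binary code, `SAT`, `InP`, `IsUniversal`,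
`KClass`) and in `Pool/Agent/Helper70/AC/Defs.lean`, `Pool/Agent/Helper70/AC/Defs2.lean`
(`Ckt`, `slice`, `SmallDepth`, `PolyDepth`).
-/

namespace Pool.Agent.Results.MP_359409_lc.NoConstantDepthSeparator

open Pool.Agent.Helper72 Pool.Agent.Helper70.AC Turing Filter

/-- Let `U` be a universal machine, `g(n) - log log log n → ∞`, `G` eventually above every
polynomial, `K = K[g(n), G(n)]`.
(1) For every prime `q` there is no polynomial time set `S` that has formulas of constant depth and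
size `2 ^ (n ^ o(1))` with AND, OR, NOT and MOD `q` gates and that separates `K ∩ SAT` from the
complement of `SAT`, nor one that separates `K ∩ SAT` from `K \ SAT`.
(2) Every polynomial time set `S` that separates `K ∩ SAT` from `K \ SAT` differs from `SAT` in
finitely many words only, so that it has at least `2 ^ j` words of length `3 j + 6` for all
large `j`.
(3) But `K ∩ SAT` itself has at most `2 ^ (g n + 1)` words of length `n`, and formulas of depth 2
and polynomial size if `g(n) = O(log n)`. -/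
theorem result (U : TM2ComputableAux Bool Bool) (hU : IsUniversal U) (g G : ℕ → ℕ)
    (hg : ∀ c, ∀ᶠ n in atTop, Nat.log 2 (Nat.log 2 (Nat.log 2 n)) + c ≤ g n)
    (hG : ∀ k, ∀ᶠ n in atTop, n ^ k ≤ G n) :
    (∀ q : ℕ, q.Prime →
      (¬ ∃ S, InP S ∧ SmallDepth q S ∧ KClass U g G ∩ SAT ⊆ S ∧ S ∩ SATᶜ = ∅) ∧
      ¬ ∃ S, InP S ∧ SmallDepth q S ∧ KClass U g G ∩ SAT ⊆ S ∧
        S ∩ (KClass U g G ∩ SATᶜ) = ∅) ∧
    (∀ S, InP S → KClass U g G ∩ SAT ⊆ S → S ∩ (KClass U g G ∩ SATᶜ) = ∅ →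
      {z : List Bool | ¬ (z ∈ S ↔ z ∈ SAT)}.Finite ∧
      ∃ n0, ∀ j ≥ n0, 2 ^ j ≤ {w : List Bool | w ∈ S ∧ w.length = 3 * j + 6}.ncard) ∧
    (∀ n, {w : List Bool | w ∈ KClass U g G ∩ SAT ∧ w.length = n}.ncard ≤ 2 ^ (g n + 1)) ∧
    (∀ c, (∀ n, g n ≤ c * Nat.clog 2 n + c) → ∀ q, PolyDepth q 2 (KClass U g G ∩ SAT)) := by
  have rig : ∀ S, InP S → KClass U g G ∩ SAT ⊆ S → S ∩ (KClass U g G ∩ SATᶜ) = ∅ →
      ∃ n0, ∀ z : List Bool, n0 ≤ z.length → (z ∈ S ↔ z ∈ SAT) := by
    intro S hS hKS hSK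
    refine rigid hU hg hG hS fun x hx => ⟨fun hxS => ?_, fun hxS => hKS ⟨hx, hxS⟩⟩
    by_contra hcon
    have : x ∈ S ∩ (KClass U g G ∩ SATᶜ) := ⟨hxS, hx, hcon⟩
    rw [hSK] at this
    exact this
  have no2 : ∀ q : ℕ, q.Prime → ¬ ∃ S, InP S ∧ SmallDepth q S ∧ KClass U g G ∩ SAT ⊆ S ∧
        S ∩ (KClass U g G ∩ SATᶜ) = ∅ := by
    rintro q hq ⟨S, hS, hd, hKS, hSK⟩
    obtain ⟨n0, hn0⟩ := rig S hS hKS hSK
    exact no_small hq n0 hn0 hd
  refine ⟨fun q hq => ⟨?_, no2 q hq⟩, fun S hS hKS hSK => ?_, card_KClass U g G,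
    fun c hc q => kclass_dnf U g G c hc q⟩
  · rintro ⟨S, hS, hd, hKS, hSK⟩
    refine no2 q hq ⟨S, hS, hd, hKS, ?_⟩
    rw [← Set.subset_empty_iff] at hSK ⊢
    exact (Set.inter_subset_inter_right S Set.inter_subset_right).trans hSK
  · obtain ⟨n0, hn0⟩ := rig S hS hKS hSK
    refine ⟨?_, n0, sat_dense hn0⟩
    refine (List.finite_length_le Bool n0).subset fun z hz => ?_
    by_contra hcon
    exact hz (hn0 z (by
      have : ¬ z.length ≤ n0 := hcon
      omega))

/-- The instance asked about: `g(n) = ⌈log2 n⌉` and `G(n) = n ^ ⌈log2 n⌉`. -/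
theorem question_one (U : TM2ComputableAux Bool Bool) (hU : IsUniversal U) (q : ℕ)
    (hq : q.Prime) :
    (¬ ∃ S, InP S ∧ SmallDepth q S ∧
      KClass U (Nat.clog 2) (fun n => n ^ Nat.clog 2 n) ∩ SAT ⊆ S ∧ S ∩ SATᶜ = ∅) ∧
    PolyDepth q 2 (KClass U (Nat.clog 2) (fun n => n ^ Nat.clog 2 n) ∩ SAT) := by
  have hlog : Tendsto (fun n => Nat.log 2 n) atTop atTop := by
    refine tendsto_atTop_atTop.2 fun b => ⟨2 ^ b, fun a ha => ?_⟩
    exact Nat.le_log_of_pow_le (by norm_num) ha
  have hr := result U hU (Nat.clog 2) (fun n => n ^ Nat.clog 2 n) (fun c => ?_) (fun k => ?_)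
  · exact ⟨(hr.1 q hq).1, hr.2.2.2 1 (fun n => by omega) q⟩
  · filter_upwards [hlog.eventually (hlog.eventually_ge_atTop (c + 2)),
      eventually_ge_atTop 2] with n hn h2
    set m := Nat.log 2 (Nat.log 2 n) with hm
    have h0 : Nat.log 2 n ≠ 0 := by
      intro h; rw [hm, h] at hn; simp at hn
    have h1 : 2 ^ m ≤ Nat.log 2 n := Nat.pow_log_le_self 2 h0
    have h3 : Nat.log 2 n ≤ Nat.clog 2 n := Nat.log_le_clog 2 n
    have h4 : Nat.log 2 m + c ≤ 2 ^ m := by
      have h5 : Nat.log 2 m ≤ m := Nat.log_le_self _ _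
      have h6 : ∀ k, 2 ≤ k → 2 * k ≤ 2 ^ k := by
        intro k hk
        induction k, hk using Nat.le_induction with
        | base => norm_num
        | succ k hk ih => rw [pow_succ]; omega
      have := h6 m (by omega)
      omega
    omega
  · filter_upwards [hlog.eventually_ge_atTop k, eventually_ge_atTop 1] with n hn h1
    exact Nat.pow_le_pow_right h1 (hn.trans (Nat.log_le_clog 2 n))

/-- Universal machines in the sense used above exist. -/
theorem universal_exists : ∃ U : TM2ComputableAux Bool Bool, IsUniversal U :=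
  Pool.Agent.Helper48.exists_universal

end Pool.Agent.Results.MP_359409_lc.NoConstantDepthSeparator
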