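import Pool.Agent.Helper70.AC.Rig
import Pool.Agent.Helper48.ExistsUniversal
import Pool.Agent.Helper93.TS.All
import Pool.Agent.Helper93.TS.Cos

/-!
Unconditional inseparability of the Kolmogorov-simple part of SAT from the complement of SAT by
polynomial time sets that can be decided in time `n ^ 1.8` with little memory. The machines for
`InP` and the universal machines are the Turing machines of Mathlib. The definitions used by the
statement are in `Pool/Agent/Helper72/Defs.lean` (formulas and their binary code, `SAT`, `InP`,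
`IsUniversal`, `KClass`) and in `Pool/Agent/Helper93/TS/Off.lean` (`Machine`, `TimeSpace`).
-/

namespace Pool.Agent.Results.MP_359409_lc.NoSmallSpaceSeparator

open Pool.Agent.Helper72 Pool.Agent.Helper70.AC Pool.Agent.Helper93.TS Turing Filter

/-- Let `U` be a universal machine, `g(n) - log log log n → ∞`, `G` eventually above every
polynomial, `K = K[g(n), G(n)]`. For every `c < 2 cos (π / 7) = 1.8019...` there is `δ > 0` such
that no polynomial time set `S` which is decided in time `n ^ c` with `n ^ δ` bits of memory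
separates `K ∩ SAT` from `K \ SAT`, let alone from the complement of `SAT`. Here the machines have
random access to the input and may depend on the length `n` of the input; in each step all memory
bits are updated by Boolean formulas of size at most `n ^ δ`. -/
theorem result (U : TM2ComputableAux Bool Bool) (hU : IsUniversal U) (g G : ℕ → ℕ)
    (hg : ∀ c, ∀ᶠ n in atTop, Nat.log 2 (Nat.log 2 (Nat.log 2 n)) + c ≤ g n)
    (hG : ∀ k, ∀ᶠ n in atTop, n ^ k ≤ G n) (c : ℝ) (hc : c < 2 * Real.cos (Real.pi / 7)) :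
    ∃ δ : ℝ, 0 < δ ∧ ¬ ∃ S, InP S ∧ TimeSpace c δ S ∧ KClass U g G ∩ SAT ⊆ S ∧
      S ∩ (KClass U g G ∩ SATᶜ) = ∅ := by
  by_contra hcon
  push Not at hcon
  refine efin c hc fun δ hδ => ?_
  obtain ⟨S, hS, hd, hKS, hSK⟩ := hcon δ hδ
  obtain ⟨n0, hn0⟩ := rigid hU hg hG hS fun x hx => ⟨fun hxS => by
    by_contra hcon
    have : x ∈ S ∩ (KClass U g G ∩ SATᶜ) := ⟨hxS, hx, hcon⟩
    rw [hSK] at this
    exact this, fun hxS => hKS ⟨hx, hxS⟩⟩
  filter_upwards [hd, eventually_ge_atTop n0] with n hn h0
  obtain ⟨M, s, T, h1, h2, h3, h4⟩ := hn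
  exact ⟨M, s, T, h1, h2, h3, fun x hx => (h4 x hx).trans (hn0 x (by omega))⟩

/-- The instance asked about: `g(n) = ⌈log2 n⌉` and `G(n) = n ^ ⌈log2 n⌉`, separation from the
complement of `SAT`, time `n ^ 1.8`. -/
theorem question_one (U : TM2ComputableAux Bool Bool) (hU : IsUniversal U) :
    ∃ δ : ℝ, 0 < δ ∧ ¬ ∃ S, InP S ∧ TimeSpace (9 / 5) δ S ∧
      KClass U (Nat.clog 2) (fun n => n ^ Nat.clog 2 n) ∩ SAT ⊆ S ∧ S ∩ SATᶜ = ∅ := by
  have hlog : Tendsto (fun n => Nat.log 2 n) atTop atTop := by
    refine tendsto_atTop_atTop.2 fun b => ⟨2 ^ b, fun a ha => ?_⟩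
    exact Nat.le_log_of_pow_le (by norm_num) ha
  have hr := result U hU (Nat.clog 2) (fun n => n ^ Nat.clog 2 n) (fun c => ?_) (fun k => ?_)
    (9 / 5) nine_fifths_lt
  · obtain ⟨δ, hδ, hr⟩ := hr
    refine ⟨δ, hδ, ?_⟩
    rintro ⟨S, hS, hd, hKS, hSK⟩
    refine hr ⟨S, hS, hd, hKS, ?_⟩
    rw [← Set.subset_empty_iff] at hSK ⊢
    exact (Set.inter_subset_inter_right S Set.inter_subset_right).trans hSK
  · filter_upwards [hlog.eventually (hlog.eventually_ge_atTop (c + 2)),
      eventually_ge_atTop 2] with n hn h2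
    set m := Nat.log 2 (Nat.log 2 n) with hm
    have h0 : Nat.log 2 n ≠ 0 := by
      intro h; rw [hm, h] at hn; simp at hn
    have h1 : 2 ^ m ≤ Nat.log 2 n := Nat.pow_log_le_self 2 h0
    have h3 : Nat.log 2 n ≤ Nat.clog 2 n := Nat.log_le_clog 2 n
    have h4 : Nat.log 2 m + c ≤ 2 ^ m := by
      have h5 : Nat.log 2 m ≤ m := Nat.log_le_self _ _
      have h6 : ∀ k, 2 ≤ k → 2 * k ≤ 2 ^ k := by
        intro k hk
        induction k, hk using Nat.le_induction with
        | base => norm_num
        | succ k hk ih => rw [pow_succ]; omega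
      have := h6 m (by omega)
      omega
    omega
  · filter_upwards [hlog.eventually_ge_atTop k, eventually_ge_atTop 1] with n hn h1
    exact Nat.pow_le_pow_right h1 (hn.trans (Nat.log_le_clog 2 n))

/-- Universal machines in the sense used above exist. -/
theorem universal_exists : ∃ U : TM2ComputableAux Bool Bool, IsUniversal U :=
  Pool.Agent.Helper48.exists_universal

end Pool.Agent.Results.MP_359409_lc.NoSmallSpaceSeparator
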