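import Pool.Agent.Helper70.AC.Rig
import Pool.Agent.Helper48.ExistsUniversal
import Pool.Agent.Helper99.TH.All

/-!
Unconditional inseparability of the Kolmogorov-simple part of SAT from the complement of SAT by
polynomial time sets with small threshold circuits. Machines are the Turing machines of Mathlib.
The definitions used by the statement are in `Pool/Agent/Helper72/Defs.lean` (formulas and their
binary code, `SAT`, `InP`, `IsUniversal`, `KClass`), `Pool/Agent/Helper70/AC/Defs2.lean` (`slice`)
and `Pool/Agent/Helper99/TH/Defs.lean` (the circuits, `SmallThreshold`).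
-/

namespace Pool.Agent.Results.MP_359409_lc.NoThresholdSeparator

open Pool.Agent.Helper72 Pool.Agent.Helper70.AC Pool.Agent.Helper99.TH Turing Filter

/-- Let `U` be a universal machine, `g(n) - log log log n → ∞`, `G` eventually above every
polynomial, `K = K[g(n), G(n)]`. No polynomial time set `S` with small threshold circuits separates
`K ∩ SAT` from `K \ SAT`, let alone from the complement of `SAT`. Small threshold circuits are:
(a) a threshold gate with arbitrary real weights applied to constant depth AND/OR/NOT formulas,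
size `2 ^ (n ^ o(1))`;
(b) a threshold gate with arbitrary real weights applied to symmetric gates of literals, size
`2 ^ (n ^ o(1))`;
(c) a majority gate applied to threshold gates of literals with arbitrary real weights and to
symmetric gates of arbitrary gates of fan-in at most `log n / 6`, size `2 ^ (n ^ o(1))`;
(d) a majority gate applied to threshold gates of literals with arbitrary real weights and to
symmetric gates of AND gates of arbitrary fan-in, size `n ^ o(log n)`. -/
theorem result (U : TM2ComputableAux Bool Bool) (hU : IsUniversal U) (g G : ℕ → ℕ)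
    (hg : ∀ c, ∀ᶠ n in atTop, Nat.log 2 (Nat.log 2 (Nat.log 2 n)) + c ≤ g n)
    (hG : ∀ k, ∀ᶠ n in atTop, n ^ k ≤ G n) :
    ¬ ∃ S, InP S ∧ SmallThreshold S ∧ KClass U g G ∩ SAT ⊆ S ∧
      S ∩ (KClass U g G ∩ SATᶜ) = ∅ := by
  rintro ⟨S, hS, hd, hKS, hSK⟩
  obtain ⟨n0, hn0⟩ := rigid hU hg hG hS fun x hx => ⟨fun hxS => by
    by_contra hcon
    have : x ∈ S ∩ (KClass U g G ∩ SATᶜ) := ⟨hxS, hx, hcon⟩
    rw [hSK] at this
    exact this, fun hxS => hKS ⟨hx, hxS⟩⟩
  exact no_threshold hn0 hd

/-- The instance asked about: `g(n) = ⌈log2 n⌉` and `G(n) = n ^ ⌈log2 n⌉`, separation from the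
complement of `SAT`. -/
theorem question_one (U : TM2ComputableAux Bool Bool) (hU : IsUniversal U) :
    ¬ ∃ S, InP S ∧ SmallThreshold S ∧
      KClass U (Nat.clog 2) (fun n => n ^ Nat.clog 2 n) ∩ SAT ⊆ S ∧ S ∩ SATᶜ = ∅ := by
  have hlog : Tendsto (fun n => Nat.log 2 n) atTop atTop := by
    refine tendsto_atTop_atTop.2 fun b => ⟨2 ^ b, fun a ha => ?_⟩
    exact Nat.le_log_of_pow_le (by norm_num) ha
  have hr := result U hU (Nat.clog 2) (fun n => n ^ Nat.clog 2 n) (fun c => ?_) (fun k => ?_)
  · rintro ⟨S, hS, hd, hKS, hSK⟩
    refine hr ⟨S, hS, hd, hKS, ?_⟩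
    rw [← Set.subset_empty_iff] at hSK ⊢
    exact (Set.inter_subset_inter_right S Set.inter_subset_right).trans hSK
  · filter_upwards [hlog.eventually (hlog.eventually_ge_atTop (c + 2)),
      eventually_ge_atTop 2] with n hn h2
    set m := Nat.log 2 (Nat.log 2 n) with hm
    have h0 : Nat.log 2 n ≠ 0 := by
      intro h; rw [hm, h] at hn; simp at hn
    have h1 : 2 ^ m ≤ Nat.log 2 n := Nat.pow_log_le_self 2 h0
    have h3 : Nat.log 2 n ≤ Nat.clog 2 n := Nat.log_le_clog 2 n
    have h4 : Nat.log 2 m + c ≤ 2 ^ m := by
      have h5 : Nat.log 2 m ≤ m := Nat.log_le_self _ _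
      have h6 : ∀ k, 2 ≤ k → 2 * k ≤ 2 ^ k := by
        intro k hk
        induction k, hk using Nat.le_induction with
        | base => norm_num
        | succ k hk ih => rw [pow_succ]; omega
      have := h6 m (by omega)
      omega
    omega
  · filter_upwards [hlog.eventually_ge_atTop k, eventually_ge_atTop 1] with n hn h1
    exact Nat.pow_le_pow_right h1 (hn.trans (Nat.log_le_clog 2 n))

/-- Universal machines in the sense used above exist. -/
theorem universal_exists : ∃ U : TM2ComputableAux Bool Bool, IsUniversal U :=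
  Pool.Agent.Helper48.exists_universal

end Pool.Agent.Results.MP_359409_lc.NoThresholdSeparator
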